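import Pool.Agent.helper78.HFN.Spec

/-!
# Project HFN (MP_3221a1_ag), row `hfn:SNG`: the number of singular points of an irreducible curve
-/

set_option autoImplicit false

open Polynomial Module

namespace Pool.Agent.HFN

noncomputable section

/-- an irreducible polynomial which does not contain `y` defines a curve without singular points -/
theorem SNG_vert (hTYP : TYP_stmt) (E : AA) (hE : Irreducible E) (h0 : dY E = 0) (z : ℂ × ℂ) : ¬ Db z E := by
  have hT := hTYP E hE
  rw [h0] at hT
  have h1 : dX E = 1 := by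
    unfold Ty at hT
    omega
  have hEC : E = C (E.coeff 0) := eq_C_of_natDegree_eq_zero h0
  set p : ℂ[X] := E.coeff 0 with hp
  rw [hEC, dX_C] at h1
  intro hD
  have h2 : ev z (Dx E) = 0 := hD.2.1
  rw [hEC, Dx_C, ev_C] at h2
  have h3 : p = C (p.coeff 1) * X + C (p.coeff 0) := eq_X_add_C_of_natDegree_le_one (le_of_eq h1)
  have h4 : (derivative p).eval z.1 = p.coeff 1 := by
    rw [h3]
    simp
  rw [h4] at h2
  have h5 : p.leadingCoeff = 0 := by
    unfold leadingCoeff
    rw [h1, h2]
  have h6 : p = 0 := leadingCoeff_eq_zero.1 h5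
  rw [h6] at h1
  simp at h1

theorem SNG_irr_sw (E : AA) (hE : Irreducible E) : Irreducible (sw E) :=
  (MulEquiv.irreducible_iff sw).2 hE

theorem SNG_horz (hTYP : TYP_stmt) (E : AA) (hE : Irreducible E) (h0 : dX E = 0) (z : ℂ × ℂ) : ¬ Db z E := by
  intro hD
  apply SNG_vert hTYP (sw E) (SNG_irr_sw E hE) (by rw [dY_sw]; exact h0) z.swap
  rw [Db_sw, Prod.swap_swap]
  exact hD

theorem SNG (hBZT : BZT_stmt) (hTYP : TYP_stmt) : SNG_stmt := by
  intro Z E hE
  classical
  by_cases hY : dY E = 0
  · have h : sg Z E = 0 := by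
      unfold sg
      rw [Finset.card_eq_zero, Finset.filter_eq_empty_iff]
      exact fun z _ => SNG_vert hTYP E hE hY z
    omega
  by_cases hX : dX E = 0
  · have h : sg Z E = 0 := by
      unfold sg
      rw [Finset.card_eq_zero, Finset.filter_eq_empty_iff]
      exact fun z _ => SNG_horz hTYP E hE hX z
    omega
  have hmem : Dx E ∈ V (dX E - 1) (dY E) := Dx_mem_V (mem_V.2 ⟨le_rfl, le_rfl⟩)
  have hne : Dx E ≠ 0 := by
    intro h
    have h1 : derivative (sw E) = 0 := (map_eq_zero_iff sw sw.injective).1 h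
    exact hX (derivative_eq_zero.1 h1)
  have hnd : ¬ E ∣ Dx E := by
    rintro ⟨g, hg⟩
    have hg0 : g ≠ 0 := by
      rintro rfl
      rw [mul_zero] at hg
      exact hne hg
    have h1 := hmem.1
    rw [hg, dX_mul hE.ne_zero hg0] at h1
    omega
  have hB := hBZT E (Dx E) hE hnd (dX E - 1) (dY E) hmem ∅ (Z.filter fun z => Db z E)
    (Finset.disjoint_empty_left _) (by simp) (fun z hz => by
      rw [Finset.mem_filter] at hz
      exact ⟨hz.2.1, hz.2.2.1⟩)
  have hs : sg Z E = (Z.filter fun z => Db z E).card := by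
    unfold sg
    congr
  rw [hs]
  rw [Finset.card_empty, mul_zero, zero_add] at hB
  refine le_trans hB ?_
  unfold ip
  have h1 : (dX E - 1) * dY E ≤ dX E * dY E := Nat.mul_le_mul_right _ (Nat.sub_le _ _)
  have h2 : dY E * dX E = dX E * dY E := Nat.mul_comm _ _
  omega

end

end Pool.Agent.HFN
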